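import Mathlib

/-!
# Gradient injectivity below the smallest convexity level fails

The function `f(x,y) = (x²+y²)² - 2x² + 6y² + 8y` on the plane satisfies all the standing
hypotheses with smallest convexity level `15`, and two of its critical points lie in the same
connected component of `R(f)`.
-/

set_option autoImplicit false

open Set Filter Topology

namespace Pool.Agent.Results.MP_5c9c6a_an.NotInjective

section defs

variable {n : ℕ}

/-- The set where the Hessian is positive definite. -/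
def HessPos (f : EuclideanSpace ℝ (Fin n) → ℝ) : Set (EuclideanSpace ℝ (Fin n)) :=
  {x | ∀ v : EuclideanSpace ℝ (Fin n), v ≠ 0 → 0 < fderiv ℝ (fderiv ℝ f) x v v}

/-- The critical set. -/
def Crit (f : EuclideanSpace ℝ (Fin n) → ℝ) : Set (EuclideanSpace ℝ (Fin n)) :=
  {x | gradient f x = 0}

/-- The truncation `T_q(f) = max {q, f}`. -/
def trunc (q : ℝ) (f : EuclideanSpace ℝ (Fin n) → ℝ) : EuclideanSpace ℝ (Fin n) → ℝ :=
  fun x => max q (f x)

/-- The levels `q ≥ inf f` such that `T_r(f)` is convex for every `r ≥ q`. -/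
def Levels (f : EuclideanSpace ℝ (Fin n) → ℝ) : Set ℝ :=
  {q | (⨅ x, ((f x : ℝ) : EReal)) ≤ (q : EReal) ∧ ∀ r, q ≤ r → ConvexOn ℝ univ (trunc r f)}

/-- The standing hypotheses (H) for `f`, with smallest convexity level `c`. -/
structure Hyp (f : EuclideanSpace ℝ (Fin n) → ℝ) (c : ℝ) : Prop where
  contDiff : ContDiff ℝ 2 f
  not_convex : ¬ ConvexOn ℝ univ f
  truncated_convex : (Levels f).Nonempty
  morse : ∀ p ∈ Crit f, ∀ v, (∀ w, fderiv ℝ (fderiv ℝ f) p v w = 0) → v = 0
  crit_bounded : Bornology.IsBounded (Crit f)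
  compl_bounded : Bornology.IsBounded (HessPos f)ᶜ
  scl : IsGLB (Levels f) c
  mem_range : c ∈ range f
  regular : ∀ x, f x = c → gradient f x ≠ 0
  above : ∀ x, c < f x → x ∈ HessPos f

/-- The set `R(f)`. -/
def R (f : EuclideanSpace ℝ (Fin n) → ℝ) (c : ℝ) : Set (EuclideanSpace ℝ (Fin n)) :=
  HessPos f \ {x | c < f x}

end defs

abbrev E := EuclideanSpace ℝ (Fin 2)

noncomputable def F (x y : ℝ) : ℝ := (x ^ 2 + y ^ 2) ^ 2 - 2 * x ^ 2 + 6 * y ^ 2 + 8 * y

noncomputable def f (p : E) : ℝ := F (p 0) (p 1)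

noncomputable def A (x y : ℝ) : ℝ := 4 * (x ^ 2 + y ^ 2) * x - 4 * x
noncomputable def B (x y : ℝ) : ℝ := 4 * (x ^ 2 + y ^ 2) * y + 12 * y + 8
noncomputable def Ax (x y : ℝ) : ℝ := 12 * x ^ 2 + 4 * y ^ 2 - 4
noncomputable def Ay (x y : ℝ) : ℝ := 8 * x * y
noncomputable def By (x y : ℝ) : ℝ := 4 * x ^ 2 + 12 * y ^ 2 + 12

noncomputable abbrev e (i : Fin 2) : E →L[ℝ] ℝ := EuclideanSpace.proj i

lemma hasFDerivAt_coord (i : Fin 2) (p : E) : HasFDerivAt (fun p : E => p i) (e i) p :=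
  (EuclideanSpace.proj (𝕜 := ℝ) i).hasFDerivAt

lemma f_hasFDerivAt (p : E) :
    HasFDerivAt f (A (p 0) (p 1) • e 0 + B (p 0) (p 1) • e 1) p := by
  have h0 := hasFDerivAt_coord 0 p
  have h1 := hasFDerivAt_coord 1 p
  have h := ((((h0.pow 2).add (h1.pow 2)).pow 2).sub ((h0.pow 2).const_mul 2)).add
    ((h1.pow 2).const_mul 6) |>.add (h1.const_mul 8)
  refine h.congr_fderiv ?_
  ext v
  simp [A, B]
  ring

lemma A_hasFDerivAt (p : E) :
    HasFDerivAt (fun p : E => A (p 0) (p 1)) (Ax (p 0) (p 1) • e 0 + Ay (p 0) (p 1) • e 1) p := by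
  have h0 := hasFDerivAt_coord 0 p
  have h1 := hasFDerivAt_coord 1 p
  have h := ((((h0.pow 2).add (h1.pow 2)).const_mul 4).mul h0).sub (h0.const_mul 4)
  refine h.congr_fderiv ?_
  ext v
  simp [Ax, Ay]
  ring

lemma B_hasFDerivAt (p : E) :
    HasFDerivAt (fun p : E => B (p 0) (p 1)) (Ay (p 0) (p 1) • e 0 + By (p 0) (p 1) • e 1) p := by
  have h0 := hasFDerivAt_coord 0 p
  have h1 := hasFDerivAt_coord 1 p
  have h := (((((h0.pow 2).add (h1.pow 2)).const_mul 4).mul h1).add (h1.const_mul 12)).add_const 8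
  refine h.congr_fderiv ?_
  ext v
  simp [By, Ay]
  ring

lemma fderiv_f : fderiv ℝ f = fun p : E => A (p 0) (p 1) • e 0 + B (p 0) (p 1) • e 1 :=
  funext fun p => (f_hasFDerivAt p).fderiv

lemma hess (p v w : E) : fderiv ℝ (fderiv ℝ f) p v w =
    (Ax (p 0) (p 1) * v 0 + Ay (p 0) (p 1) * v 1) * w 0 +
      (Ay (p 0) (p 1) * v 0 + By (p 0) (p 1) * v 1) * w 1 := by
  rw [fderiv_f]
  have h : HasFDerivAt (fun p : E => A (p 0) (p 1) • e 0 + B (p 0) (p 1) • e 1) _ p :=
    ((A_hasFDerivAt p).smul_const (e 0)).add ((B_hasFDerivAt p).smul_const (e 1))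
  rw [h.fderiv]
  simp

lemma grad_zero_iff (p : E) : gradient f p = 0 ↔ A (p 0) (p 1) = 0 ∧ B (p 0) (p 1) = 0 := by
  unfold gradient
  rw [LinearIsometryEquiv.map_eq_zero_iff, fderiv_f]
  constructor
  · intro h
    have h0 := congrArg (fun L : E →L[ℝ] ℝ => L (EuclideanSpace.single 0 1)) h
    have h1 := congrArg (fun L : E →L[ℝ] ℝ => L (EuclideanSpace.single 1 1)) h
    simp at h0 h1
    exact ⟨h0, h1⟩
  · rintro ⟨h0, h1⟩
    simp only [h0, h1, zero_smul, add_zero]

/-- the determinant of the Hessian divided by 16 -/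
noncomputable def D (x y : ℝ) : ℝ := 3 * (x ^ 2 + y ^ 2) ^ 2 + 8 * x ^ 2 - 3

lemma det_eq (x y : ℝ) : Ax x y * By x y - Ay x y ^ 2 = 16 * D x y := by
  unfold Ax By Ay D; ring

lemma By_pos (x y : ℝ) : 0 < By x y := by unfold By; positivity

lemma mem_HessPos (p : E) : p ∈ HessPos f ↔ 0 < D (p 0) (p 1) := by
  have hB := By_pos (p 0) (p 1)
  have hdet := det_eq (p 0) (p 1)
  constructor
  · intro h
    have h1 := h (!₂[By (p 0) (p 1), - Ay (p 0) (p 1)]) (by
      intro h0
      have := congrArg (fun v : E => v 0) h0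
      simp at this
      exact hB.ne' this)
    rw [hess] at h1
    simp at h1
    have h2 : 0 < By (p 0) (p 1) * (16 * D (p 0) (p 1)) := by
      rw [← hdet]
      nlinarith
    have h3 := pos_of_mul_pos_right h2 hB.le
    linarith
  · intro h v hv
    rw [hess]
    have key : By (p 0) (p 1) * ((Ax (p 0) (p 1) * v 0 + Ay (p 0) (p 1) * v 1) * v 0 +
        (Ay (p 0) (p 1) * v 0 + By (p 0) (p 1) * v 1) * v 1) =
        (By (p 0) (p 1) * v 1 + Ay (p 0) (p 1) * v 0) ^ 2 + 16 * D (p 0) (p 1) * v 0 ^ 2 := by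
      rw [← hdet]; ring
    have h2 : 0 < (By (p 0) (p 1) * v 1 + Ay (p 0) (p 1) * v 0) ^ 2 +
        16 * D (p 0) (p 1) * v 0 ^ 2 := by
      by_cases h0 : v 0 = 0
      · have h1 : v 1 ≠ 0 := by
          intro h1
          apply hv
          ext i
          fin_cases i
          · simpa using h0
          · simpa using h1
        rw [h0]
        have : By (p 0) (p 1) * v 1 ≠ 0 := mul_ne_zero hB.ne' h1
        have := sq_pos_of_ne_zero this
        nlinarith
      · have : 0 < v 0 ^ 2 := by positivity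
        have : 0 < 16 * D (p 0) (p 1) * v 0 ^ 2 := by positivity
        positivity
    rw [← key] at h2
    exact pos_of_mul_pos_right h2 hB.le

lemma F_le_of_D {x y : ℝ} (h : D x y ≤ 0) : F x y ≤ 15 ∧ x ^ 2 + y ^ 2 ≤ 1 := by
  unfold D at h
  unfold F
  have h1 : (x ^ 2 + y ^ 2) ^ 2 ≤ 1 := by nlinarith [sq_nonneg x]
  have h2 : x ^ 2 + y ^ 2 ≤ 1 := by nlinarith [sq_nonneg x, sq_nonneg y]
  have h3 : y ≤ 1 := by nlinarith [sq_nonneg x]
  refine ⟨?_, h2⟩
  nlinarith [sq_nonneg x]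

/-! ### convexity of the truncations -/

lemma no_max {g g1 g2 : ℝ → ℝ} (h1 : ∀ s, HasDerivAt g (g1 s) s) (h2 : ∀ s, HasDerivAt g1 (g2 s) s)
    {c : ℝ} (hc : IsLocalMax g c) (hpos : 0 < g2 c) : False := by
  have hd : deriv g = g1 := funext fun s => (h1 s).deriv
  have hd2 : deriv (deriv g) c = g2 c := by rw [hd]; exact (h2 c).deriv
  have hmin : IsLocalMin g c :=
    isLocalMin_of_deriv_deriv_pos (by rw [hd2]; exact hpos) hc.deriv_eq_zero
      (h1 c).continuousAt
  have hev : g =ᶠ[𝓝 c] fun _ => g c := by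
    filter_upwards [hc, hmin] with z hz1 hz2
    exact le_antisymm hz1 hz2
  have h3 := hev.deriv.deriv_eq
  rw [hd2] at h3
  simp at h3
  linarith

lemma trunc_convex {r : ℝ} (hr : 15 ≤ r) : ConvexOn ℝ univ (trunc r f) := by
  refine ⟨convex_univ, fun u _ v _ a b ha hb hab => ?_⟩
  simp only [smul_eq_mul]
  by_contra hcon
  push Not at hcon
  set L0 := trunc r f u with hL0
  set L1 := trunc r f v with hL1
  have hL0r : r ≤ L0 := le_max_left _ _
  have hL1r : r ≤ L1 := le_max_left _ _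
  have hf0 : f u ≤ L0 := le_max_right _ _
  have hf1 : f v ≤ L1 := le_max_right _ _
  set d0 := v 0 - u 0 with hd0
  set d1 := v 1 - u 1 with hd1
  set X : ℝ → ℝ := fun s => u 0 + s * d0 with hX
  set Y : ℝ → ℝ := fun s => u 1 + s * d1 with hY
  set g : ℝ → ℝ := fun s => F (X s) (Y s) - (L0 + s * (L1 - L0)) with hg
  set g1 : ℝ → ℝ := fun s => A (X s) (Y s) * d0 + B (X s) (Y s) * d1 - (L1 - L0) with hg1
  set g2 : ℝ → ℝ := fun s => (Ax (X s) (Y s) * d0 + Ay (X s) (Y s) * d1) * d0 +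
    (Ay (X s) (Y s) * d0 + By (X s) (Y s) * d1) * d1 with hg2
  have hX' : ∀ s, HasDerivAt X d0 s := fun s => by
    simpa [hX] using ((hasDerivAt_id s).mul_const d0).const_add (u 0)
  have hY' : ∀ s, HasDerivAt Y d1 s := fun s => by
    simpa [hY] using ((hasDerivAt_id s).mul_const d1).const_add (u 1)
  have hl' : ∀ s : ℝ, HasDerivAt (fun s : ℝ => L0 + s * (L1 - L0)) (L1 - L0) s := fun s => by
    simpa using ((hasDerivAt_id s).mul_const (L1 - L0)).const_add L0
  have H1 : ∀ s, HasDerivAt g (g1 s) s := by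
    intro s
    have hx := hX' s
    have hy := hY' s
    have h := ((((((hx.pow 2).add (hy.pow 2)).pow 2).sub ((hx.pow 2).const_mul 2)).add
      ((hy.pow 2).const_mul 6)).add (hy.const_mul 8)).sub (hl' s)
    refine h.congr_deriv ?_
    simp only [hg1, A, B, Pi.pow_apply, Pi.add_apply]
    norm_num
    ring
  have H2 : ∀ s, HasDerivAt g1 (g2 s) s := by
    intro s
    have hx := hX' s
    have hy := hY' s
    have hA := ((((hx.pow 2).add (hy.pow 2)).const_mul 4).mul hx).sub (hx.const_mul 4)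
    have hB := (((((hx.pow 2).add (hy.pow 2)).const_mul 4).mul hy).add
      (hy.const_mul 12)).add_const 8
    have h := ((hA.mul_const d0).add (hB.mul_const d1)).sub_const (L1 - L0)
    refine h.congr_deriv ?_
    simp only [hg2, Ax, Ay, By, Pi.pow_apply, Pi.add_apply]
    norm_num
    ring
  have hgc : Continuous g := by
    rw [continuous_iff_continuousAt]
    exact fun s => (H1 s).continuousAt
  have hb1 : b ≤ 1 := by linarith
  obtain ⟨c, hc, hmax⟩ := isCompact_Icc.exists_isMaxOn (nonempty_Icc.mpr (zero_le_one' ℝ))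
    hgc.continuousOn
  have hw0 : (a • u + b • v) 0 = X b := by
    simp only [PiLp.add_apply, PiLp.smul_apply, smul_eq_mul, hX, hd0]
    have : a = 1 - b := by linarith
    rw [this]; ring
  have hw1 : (a • u + b • v) 1 = Y b := by
    simp only [PiLp.add_apply, PiLp.smul_apply, smul_eq_mul, hY, hd1]
    have : a = 1 - b := by linarith
    rw [this]; ring
  have hLb : a * L0 + b * L1 = L0 + b * (L1 - L0) := by
    have : a = 1 - b := by linarith
    rw [this]; ring
  have hgb : 0 < g b := by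
    have h3 : r ≤ a * L0 + b * L1 := by
      have : a * r + b * r = r := by rw [← add_mul, hab, one_mul]
      nlinarith
    have h4 : trunc r f (a • u + b • v) = f (a • u + b • v) := by
      unfold trunc at hcon ⊢
      rcases max_choice r (f (a • u + b • v)) with h5 | h5
      · rw [h5] at hcon; linarith
      · exact h5
    rw [h4] at hcon
    unfold f at hcon
    rw [hw0, hw1, hLb] at hcon
    simp only [hg]
    linarith
  have hgc' : g b ≤ g c := hmax ⟨hb, hb1⟩
  have hg0 : g 0 ≤ 0 := by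
    have : f u = F (X 0) (Y 0) := by simp [hX, hY, f]
    simp only [hg, zero_mul, add_zero]
    rw [← this]; linarith
  have hg1' : g 1 ≤ 0 := by
    have : f v = F (X 1) (Y 1) := by simp [hX, hY, f, hd0, hd1]
    simp only [hg, one_mul]
    rw [← this]; linarith
  have hc0 : 0 < c := by
    rcases hc.1.eq_or_lt with h | h
    · rw [← h] at hgc'; linarith
    · exact h
  have hc1 : c < 1 := by
    rcases hc.2.eq_or_lt with h | h
    · rw [h] at hgc'; linarith
    · exact h
  have hlm : IsLocalMax g c := by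
    filter_upwards [Icc_mem_nhds hc0 hc1] with z hz
    exact hmax hz
  have hFc : 15 < F (X c) (Y c) := by
    have h3 : r ≤ L0 + c * (L1 - L0) := by nlinarith
    have h4 : 0 < g c := hgb.trans_le hgc'
    simp only [hg] at h4
    linarith
  have hD : 0 < D (X c) (Y c) := by
    by_contra hD
    push Not at hD
    have := (F_le_of_D hD).1
    linarith
  have hdne : d0 ≠ 0 ∨ d1 ≠ 0 := by
    by_contra hne
    push Not at hne
    have h5 : g b = g 0 - b * (L1 - L0) := by
      simp only [hg, hX, hY, hne.1, hne.2]; ring_nf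
    have huv : u = v := by
      ext i
      fin_cases i
      · simp only [Fin.zero_eta, Fin.isValue]; linarith [hne.1]
      · simp only [Fin.mk_one, Fin.isValue]; linarith [hne.2]
    have : L0 = L1 := by rw [hL0, hL1, huv]
    rw [← this] at h5
    linarith
  refine no_max H1 H2 hlm ?_
  have hBp := By_pos (X c) (Y c)
  have hdet := det_eq (X c) (Y c)
  have key : By (X c) (Y c) * g2 c =
      (By (X c) (Y c) * d1 + Ay (X c) (Y c) * d0) ^ 2 + 16 * D (X c) (Y c) * d0 ^ 2 := by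
    simp only [hg2]
    rw [← hdet]; ring
  have h6 : 0 < (By (X c) (Y c) * d1 + Ay (X c) (Y c) * d0) ^ 2 + 16 * D (X c) (Y c) * d0 ^ 2 := by
    by_cases h0 : d0 = 0
    · have h1 : d1 ≠ 0 := by tauto
      rw [h0]
      have : By (X c) (Y c) * d1 ≠ 0 := mul_ne_zero hBp.ne' h1
      have := sq_pos_of_ne_zero this
      nlinarith
    · have : 0 < d0 ^ 2 := by positivity
      have : 0 < 16 * D (X c) (Y c) * d0 ^ 2 := by positivity
      positivity
  rw [← key] at h6
  exact pos_of_mul_pos_right h6 hBp.le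

lemma not_trunc_convex {r : ℝ} (hr : r < 15) : ¬ ConvexOn ℝ univ (trunc r f) := by
  intro h
  set δ : ℝ := min (1 / 2) ((15 - r) / 48) with hδ
  have hδ0 : 0 < δ := lt_min (by norm_num) (by linarith)
  have hδ1 : δ ≤ 1 / 2 := min_le_left _ _
  have hδ2 : δ ≤ (15 - r) / 48 := min_le_right _ _
  set s : ℝ := 1 - δ with hs
  set t : ℝ := Real.sqrt (1 - s ^ 2) with ht
  have hs2 : 0 < 1 - s ^ 2 := by rw [hs]; nlinarith
  have ht2 : t ^ 2 = 1 - s ^ 2 := Real.sq_sqrt hs2.le
  have hmid := h.2 (mem_univ (!₂[t, s] : E)) (mem_univ (!₂[-t, s] : E))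
    (by norm_num : (0 : ℝ) ≤ 1 / 2) (by norm_num : (0 : ℝ) ≤ 1 / 2) (by norm_num)
  have e1 : trunc r f ((1 / 2 : ℝ) • (!₂[t, s] : E) + (1 / 2 : ℝ) • (!₂[-t, s] : E)) =
      max r (F 0 s) := by
    unfold trunc f
    congr 2
    · simp
    · simp; ring_nf
  have e2 : trunc r f (!₂[t, s] : E) = max r (F t s) := by
    unfold trunc f; simp
  have e3 : trunc r f (!₂[-t, s] : E) = max r (F t s) := by
    unfold trunc f; simp [F]
  have hmid2 : max r (F 0 s) ≤ max r (F t s) := by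
    rw [e1, e2, e3, smul_eq_mul] at hmid
    linarith
  have hF0 : r < F 0 s := by
    unfold F
    have : 15 - 24 * δ ≤ (0 ^ 2 + s ^ 2) ^ 2 - 2 * 0 ^ 2 + 6 * s ^ 2 + 8 * s := by
      rw [hs]
      nlinarith [sq_nonneg δ, pow_pos hδ0 3, pow_pos hδ0 4, mul_pos hδ0 hδ0]
    linarith
  have hFt : F t s < F 0 s := by
    have : F t s = F 0 s + t ^ 2 * (t ^ 2 + 2 * s ^ 2 - 2) := by unfold F; ring
    rw [this, ht2]
    nlinarith
  have h3 : max r (F t s) < F 0 s := max_lt hF0 hFt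
  have h4 : F 0 s ≤ max r (F 0 s) := le_max_right _ _
  linarith

lemma crit_cases {x y : ℝ} (hA : A x y = 0) (hB : B x y = 0) :
    (x ^ 2 = 3 / 4 ∧ y = -1 / 2) ∨ (x = 0 ∧ -1 < y ∧ y < 0) := by
  unfold A at hA
  unfold B at hB
  have h1 : x * (x ^ 2 + y ^ 2 - 1) = 0 := by linarith
  rcases mul_eq_zero.mp h1 with h2 | h2
  · right
    rw [h2] at hB
    refine ⟨h2, ?_, ?_⟩
    · by_contra hcon
      push Not at hcon
      nlinarith [sq_nonneg y, sq_nonneg (y + 1)]
    · by_contra hcon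
      push Not at hcon
      have : 0 ≤ y ^ 2 * y := by positivity
      nlinarith
  · left
    have h3 : x ^ 2 + y ^ 2 = 1 := by linarith
    rw [h3] at hB
    have hy : y = -1 / 2 := by linarith
    refine ⟨?_, hy⟩
    rw [hy] at h3
    linarith

lemma D_crit {x y : ℝ} (h : (x ^ 2 = 3 / 4 ∧ y = -1 / 2) ∨ (x = 0 ∧ -1 < y ∧ y < 0)) :
    D x y ≠ 0 := by
  rcases h with ⟨h1, h2⟩ | ⟨h1, h2, h3⟩
  · unfold D
    rw [h1, h2]; norm_num
  · unfold D
    rw [h1]
    have h4 : y ^ 2 < 1 := by nlinarith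
    have h5 : (y ^ 2) ^ 2 < 1 := by nlinarith [sq_nonneg y]
    intro h6
    nlinarith

lemma norm_le_one {p : E} (h : p 0 ^ 2 + p 1 ^ 2 ≤ 1) : ‖p‖ ≤ 1 := by
  rw [EuclideanSpace.norm_eq, Real.sqrt_le_iff]
  simpa using h

lemma hyp : Hyp f 15 where
  contDiff := by
    have h0 : ContDiff ℝ 2 (fun p : E => p 0) := (EuclideanSpace.proj (𝕜 := ℝ) (0 : Fin 2)).contDiff
    have h1 : ContDiff ℝ 2 (fun p : E => p 1) := (EuclideanSpace.proj (𝕜 := ℝ) (1 : Fin 2)).contDiff
    exact (((((h0.pow 2).add (h1.pow 2)).pow 2).sub (contDiff_const.mul (h0.pow 2))).add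
      (contDiff_const.mul (h1.pow 2))).add (contDiff_const.mul h1)
  not_convex := by
    intro h
    have hmid := h.2 (mem_univ (!₂[1, 0] : E)) (mem_univ (!₂[-1, 0] : E))
      (by norm_num : (0 : ℝ) ≤ 1 / 2) (by norm_num : (0 : ℝ) ≤ 1 / 2) (by norm_num)
    simp [f, F] at hmid
  truncated_convex := by
    refine ⟨15, ?_, fun r hr => trunc_convex hr⟩
    refine (iInf_le _ (!₂[0, 0] : E)).trans ?_
    rw [EReal.coe_le_coe_iff]
    simp [f, F]
  morse := by
    intro p hp v hv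
    have hc := crit_cases ((grad_zero_iff p).mp hp).1 ((grad_zero_iff p).mp hp).2
    have hD := D_crit hc
    have h0 := hv (EuclideanSpace.single 0 1)
    have h1 := hv (EuclideanSpace.single 1 1)
    rw [hess] at h0 h1
    simp at h0 h1
    have hdet := det_eq (p 0) (p 1)
    have hBp := By_pos (p 0) (p 1)
    have hv0 : v 0 = 0 := by
      have : (16 * D (p 0) (p 1)) * v 0 = 0 := by
        rw [← hdet]
        linear_combination (By (p 0) (p 1)) * h0 - (Ay (p 0) (p 1)) * h1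
      rcases mul_eq_zero.mp this with h2 | h2
      · exact absurd (by linarith) hD
      · exact h2
    have hv1 : v 1 = 0 := by
      rw [hv0, mul_zero, zero_add] at h1
      rcases mul_eq_zero.mp h1 with h2 | h2
      · exact absurd h2 hBp.ne'
      · exact h2
    ext i
    fin_cases i
    · simpa using hv0
    · simpa using hv1
  crit_bounded := by
    rw [isBounded_iff_forall_norm_le]
    refine ⟨1, fun p hp => norm_le_one ?_⟩
    rcases crit_cases ((grad_zero_iff p).mp hp).1 ((grad_zero_iff p).mp hp).2 with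
      ⟨h1, h2⟩ | ⟨h1, h2, h3⟩
    · rw [h1, h2]; norm_num
    · rw [h1]; nlinarith
  compl_bounded := by
    rw [isBounded_iff_forall_norm_le]
    refine ⟨1, fun p hp => norm_le_one ?_⟩
    rw [mem_compl_iff, mem_HessPos, not_lt] at hp
    exact (F_le_of_D hp).2
  scl := by
    constructor
    · intro q hq
      by_contra hcon
      push Not at hcon
      exact not_trunc_convex hcon (hq.2 q le_rfl)
    · intro q hq
      apply hq
      refine ⟨?_, fun r hr => trunc_convex hr⟩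
      refine (iInf_le _ (!₂[0, 0] : E)).trans ?_
      rw [EReal.coe_le_coe_iff]
      simp [f, F]
  mem_range := ⟨!₂[0, 1], by simp [f, F]; norm_num⟩
  regular := by
    intro p hp hg
    unfold f F at hp
    rcases crit_cases ((grad_zero_iff p).mp hg).1 ((grad_zero_iff p).mp hg).2 with
      ⟨h1, h2⟩ | ⟨h1, h2, h3⟩
    · rw [h1, h2] at hp
      norm_num at hp
    · rw [h1] at hp
      have h4 : (p 1) ^ 2 < 1 := by nlinarith
      have h5 : ((p 1) ^ 2) ^ 2 < 1 := by nlinarith [sq_nonneg (p 1)]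
      nlinarith
  above := by
    intro p hp
    rw [mem_HessPos]
    by_contra hD
    push Not at hD
    have := (F_le_of_D hD).1
    unfold f at hp
    linarith

/-- the path joining the two minima inside `R(f)` -/
noncomputable def γ (t : ℝ) : E := !₂[Real.sqrt 3 / 2 * t, -3 / 2 + |t|]

lemma γ_cont : Continuous γ := by
  unfold γ
  apply (PiLp.continuous_toLp 2 _).comp
  rw [continuous_pi_iff]
  intro i
  fin_cases i
  · simp; fun_prop
  · simp; fun_prop

lemma γ_mem {t : ℝ} (ht : t ∈ Icc (-1 : ℝ) 1) : γ t ∈ R f 15 := by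
  have h3 : Real.sqrt 3 ^ 2 = 3 := Real.sq_sqrt (by norm_num)
  set u := |t| with hu
  have hu0 : 0 ≤ u := abs_nonneg t
  have hu1 : u ≤ 1 := abs_le.mpr ht
  have hx2 : (Real.sqrt 3 / 2 * t) ^ 2 = 3 / 4 * u ^ 2 := by
    rw [mul_pow, div_pow, h3, hu, sq_abs]; norm_num
  have e0 : γ t 0 = Real.sqrt 3 / 2 * t := by simp [γ]
  have e1 : γ t 1 = -3 / 2 + u := by simp [γ, hu]
  constructor
  · rw [mem_HessPos, e0, e1]
    unfold D
    rw [hx2]
    have e : 3 / 4 * u ^ 2 + (-3 / 2 + u) ^ 2 = 7 / 4 * u ^ 2 - 3 * u + 9 / 4 := by ring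
    rw [e]
    nlinarith [sq_nonneg (u - 6 / 7), sq_nonneg (7 / 4 * u ^ 2 - 3 * u + 9 / 4 - 1),
      mul_nonneg hu0 (sub_nonneg.mpr hu1)]
  · simp only [mem_ofPred_eq, not_lt]
    unfold f F
    rw [e0, e1, hx2]
    have e : 3 / 4 * u ^ 2 + (-3 / 2 + u) ^ 2 = 7 / 4 * u ^ 2 - 3 * u + 9 / 4 := by ring
    rw [e]
    have h5 : 0 ≤ 7 / 4 * u ^ 2 - 3 * u + 9 / 4 := by nlinarith [sq_nonneg (u - 6 / 7)]
    have h6 : 7 / 4 * u ^ 2 - 3 * u + 9 / 4 ≤ 9 / 4 := by nlinarith
    have h7 : (7 / 4 * u ^ 2 - 3 * u + 9 / 4) ^ 2 ≤ (9 / 4) ^ 2 := pow_le_pow_left₀ h5 h6 2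
    nlinarith

/-- **Negative answer to Q1.** The function `f` satisfies (H), and there are two distinct points
in the same connected component of `R(f)` with the same gradient. -/
theorem result :
    (∃ x y : E, Hyp f 15 ∧ x ∈ R f 15 ∧ y ∈ connectedComponentIn (R f 15) x ∧ x ≠ y ∧
      gradient f x = gradient f y) ∧
    ¬ ∀ (n : ℕ), 1 ≤ n → ∀ (f : EuclideanSpace ℝ (Fin n) → ℝ) (c : ℝ), Hyp f c →
      ∀ x ∈ R f c, InjOn (gradient f) (connectedComponentIn (R f c) x) := by
  have h3 : Real.sqrt 3 ^ 2 = 3 := Real.sq_sqrt (by norm_num)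
  have m1 : (1 : ℝ) ∈ Icc (-1 : ℝ) 1 := by norm_num
  have m2 : (-1 : ℝ) ∈ Icc (-1 : ℝ) 1 := by norm_num
  have hx : γ 1 ∈ R f 15 := γ_mem m1
  have hpre : IsPreconnected (γ '' Icc (-1) 1) := isPreconnected_Icc.image _ γ_cont.continuousOn
  have hsub : γ '' Icc (-1) 1 ⊆ connectedComponentIn (R f 15) (γ 1) := by
    apply hpre.subset_connectedComponentIn ⟨1, m1, rfl⟩
    rintro _ ⟨t, ht, rfl⟩
    exact γ_mem ht
  have hy : γ (-1) ∈ connectedComponentIn (R f 15) (γ 1) := hsub ⟨-1, m2, rfl⟩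
  have hne : γ 1 ≠ γ (-1) := by
    intro h
    have := congrArg (fun v : E => v 0) h
    simp [γ] at this
    have h4 : 0 < Real.sqrt 3 := Real.sqrt_pos.mpr (by norm_num)
    linarith
  have hg : ∀ t : ℝ, |t| = 1 → gradient f (γ t) = 0 := by
    intro t ht
    have ht2 : t ^ 2 = 1 := by rw [← sq_abs, ht]; norm_num
    rw [grad_zero_iff]
    have e0 : γ t 0 = Real.sqrt 3 / 2 * t := by simp [γ]
    have e1 : γ t 1 = -1 / 2 := by simp [γ, ht]; norm_num
    have hx2 : (Real.sqrt 3 / 2 * t) ^ 2 = 3 / 4 := by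
      rw [mul_pow, div_pow, h3, ht2]; norm_num
    rw [e0, e1]
    unfold A B
    rw [hx2]
    constructor
    · ring
    · norm_num
  have hg1 := hg 1 (by norm_num)
  have hg2 := hg (-1) (by norm_num)
  refine ⟨⟨γ 1, γ (-1), hyp, hx, hy, hne, by rw [hg1, hg2]⟩, ?_⟩
  intro h
  have := h 2 (by norm_num) f 15 hyp (γ 1) hx
    (mem_connectedComponentIn hx) hy (by rw [hg1, hg2])
  exact hne this

end Pool.Agent.Results.MP_5c9c6a_an.NotInjective
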